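import Pool.Agent.AEN.Stmts

/-!
# Anderson model, the cheap end: row EN2
-/

set_option autoImplicit false

open MeasureTheory ProbabilityTheory Function Filter

open scoped ENNReal BigOperators InnerProductSpace Topology

noncomputable section

namespace Pool.Agent.AEN.H16

open Pool.Agent.Anderson Pool.Agent.Loc Pool.Agent.Helper54.Bal

theorem en2 (hend : EndStmt) (pos : PosStmt) : En2Stmt := by
  intro d σ a b hd hσ h
  apply hend d σ a b hd hσ
  filter_upwards [h] with E hE
  obtain ⟨p, hp, hA⟩ := hE
  have h1 := pos d σ E p hA
  intro h0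
  rw [h0] at h1
  exact hp (le_antisymm h1 zero_le)

end Pool.Agent.AEN.H16
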